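import Pool.Agent.Q194.WCO.Ex

/-!
# A hypercyclic composition operator on `C^∞(Ω)` which is not chaotic

Full answer (the statement of Q1 is false, the negated form holds) to MP_fcbc3e_an, for every `d ≥ 3`.

Proof. On `(ℂ ∖ 0) × ℝ × ℝ^(d-3)` take
`ψ(z, t, v) = (z λ exp (Re g(z/|z|)), t + Im g(z/|z|), v)` with `λ = exp(2πiα)`, `α = ∑ 1/Q_k`,
`Q_{k+1} = 32 · 8^{Q_k} Q_k`, `g(ζ) = ∑ 4^{-Q_k} ζ^{Q_k}`. The Birkhoff sums of `g` over the rotation
by `λ` are uniformly large at the times `8^{Q_k}`, so `ψ` is run-away, and bounded by `6` at the times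
`Q_k`, so `ψ` is not strongly run-away. A run-away symbol gives a hypercyclic operator (the universal
function is built by gluing, using that `C^∞(Ω)` is separable); and by the theorem
`strongly_runaway` (two periodic functions and a clopen argument, see MP_07ea7a_an) a chaotic
weighted composition operator has a strongly run-away symbol.
-/

set_option autoImplicit false

namespace Pool.Agent.Results.MP_fcbc3e_an.SupercyclicNotChaotic

open Set Pool.Agent.Q194.WCO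
open scoped ContDiff

/-- Multiplication of `f` by the scalar `c`. -/
def smul {d : ℕ} {Ω : Set (E d)} {𝕜 : Type} [RCLike 𝕜] (c : 𝕜) (f : CInf Ω 𝕜) : CInf Ω 𝕜 where
  toFun := fun x => c * f.toFun x
  smooth := contDiffOn_const.mul f.smooth
  zero_off := fun x hx => by rw [f.zero_off x hx, mul_zero]

/-- Supercyclicity: some projective orbit `{c T^n g}` is dense. -/
def IsSupercyclic {d : ℕ} {Ω : Set (E d)} {𝕜 : Type} [RCLike 𝕜] (T : CInf Ω 𝕜 → CInf Ω 𝕜) : Prop :=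
  ∃ g : CInf Ω 𝕜, Dense {h : CInf Ω 𝕜 | ∃ (n : ℕ) (c : 𝕜), smul c (T^[n] g) = h}

/-- Hypercyclicity: some orbit `{T^n g}` is dense. -/
def IsHypercyclic {d : ℕ} {Ω : Set (E d)} {𝕜 : Type} [RCLike 𝕜] (T : CInf Ω 𝕜 → CInf Ω 𝕜) : Prop :=
  ∃ g : CInf Ω 𝕜, Dense {h : CInf Ω 𝕜 | ∃ n : ℕ, T^[n] g = h}

/-- For every `d ≥ 3` there are a nonempty open set `Ω ⊆ ℝ^d` and a smooth map `ψ : Ω → Ω` such that the
composition operator `f ↦ f ∘ ψ` on `C^∞(Ω, 𝕜)` is supercyclic (even hypercyclic) but not chaotic. -/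
theorem result (𝕜 : Type) [RCLike 𝕜] (d : ℕ) (hd : 3 ≤ d) :
    ∃ (Ω : Set (E d)) (ψ : E d → E d) (hw : ContDiffOn ℝ ∞ (fun _ => (1 : 𝕜)) Ω)
      (hψ : ContDiffOn ℝ ∞ ψ Ω) (hm : MapsTo ψ Ω Ω), IsOpen Ω ∧ Ω.Nonempty ∧
      IsSupercyclic (op (fun _ => (1 : 𝕜)) ψ hw hψ hm) ∧
      IsHypercyclic (op (fun _ => (1 : 𝕜)) ψ hw hψ hm) ∧
      ¬ IsChaotic (op (fun _ => (1 : 𝕜)) ψ hw hψ hm) := by
  obtain ⟨n, rfl⟩ : ∃ n, d = n + 3 := ⟨d - 3, by omega⟩
  have hw : ContDiffOn ℝ ∞ (fun _ : E (n + 3) => (1 : 𝕜)) (Dom n) := contDiffOn_const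
  have hw0 : ∀ x ∈ Dom n, (fun _ : E (n + 3) => (1 : 𝕜)) x ≠ 0 := fun _ _ => one_ne_zero
  obtain ⟨g, hg⟩ := hypercyclic hw (psi_smooth n) (psi_maps n) (Dom_open n) hw0 (psi_inj n)
    (psi_equiv n) (fun K hK hKD => psi_runaway n K hK hKD)
  refine ⟨Dom n, psi n, hw, psi_smooth n, psi_maps n, Dom_open n, ?_, ⟨g, ?_⟩, ⟨g, hg⟩, ?_⟩
  · refine ⟨(ee n).symm (1, 0, 0), ?_⟩
    change (ee n ((ee n).symm (1, 0, 0))).1 ≠ 0
    rw [ContinuousLinearEquiv.apply_symm_apply]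
    exact one_ne_zero
  · refine hg.mono ?_
    rintro h ⟨k, hk⟩
    refine ⟨k, 1, ?_⟩
    rw [← hk]
    unfold smul
    simp only [one_mul]
  · intro hc
    obtain ⟨K, hK, hKD, hret⟩ := psi_returns n
    obtain ⟨N, hN⟩ := strongly_runaway hw (psi_smooth n) (psi_maps n) (Dom_open n) hw0 hc.2
      (fun L hL hLD => psi_runaway n L hL hLD) hK hKD
    obtain ⟨m, hm, hne⟩ := hret N
    exact hne (hN m hm)

end Pool.Agent.Results.MP_fcbc3e_an.SupercyclicNotChaotic
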